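import Pool.Agent.N969.P15.Defs

/-! # P15 C1A: forms and cusps as factorizations -/

set_option autoImplicit false

namespace Pool.Agent.N970.P15.C1A

open Finset Pool.Agent.N969.P15

/-- the forms of discriminant `k²` which are negative at `x / M` -/
def SS (k x M : ℤ) : Set (ℤ × ℤ × ℤ) :=
  {q | (q.2.1 ^ 2 - 4 * q.1 * q.2.2 = k ^ 2 ∧ (15 : ℤ) ∣ q.1) ∧ 0 < q.1 ∧
    q.1 * x ^ 2 + q.2.1 * x * M + q.2.2 * M ^ 2 < 0}

theorem SS_fin (k x M : ℤ) (hM : 0 < M) : (SS k x M).Finite := by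
  have h1 : ((Set.Icc (0:ℤ) (k^2*M^2)) ×ˢ (Set.Icc (-(k^2*M^2)) (k^2 * M^2))).Finite :=
    (Set.finite_Icc _ _).prod (Set.finite_Icc _ _)
  refine Set.Finite.of_injOn (f := fun q : ℤ×ℤ×ℤ => (q.1, 2 * q.1 * x + q.2.1 * M)) ?_ ?_ h1
  · rintro ⟨A, B, C⟩ ⟨⟨hd, _⟩, hA, hN⟩
    simp only at hd hA hN
    have key : (2*A*x+B*M)^2 = 4*A*(A*x^2+B*x*M+C*M^2) + k^2*M^2 := by
      linear_combination M^2 * hd
    have h2 : A * (A*x^2+B*x*M+C*M^2) ≤ -A := by nlinarith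
    have h3 : 0 ≤ (2*A*x+B*M)^2 := sq_nonneg _
    have h4 : (2*A*x+B*M)^2 ≤ k^2*M^2 := by nlinarith
    have h5 : |2*A*x+B*M| ≤ (2*A*x+B*M)^2 := by
      rw [← sq_abs]
      have := abs_nonneg (2*A*x+B*M)
      nlinarith [Int.le_self_sq (|2*A*x+B*M|)]
    have h6 := abs_le.1 (h5.trans h4)
    simp only [Set.mem_prod, Set.mem_Icc]
    refine ⟨⟨hA.le, by nlinarith⟩, h6.1, h6.2⟩
  · rintro ⟨A, B, C⟩ ⟨⟨hd, _⟩, hA, hN⟩ ⟨A', B', C'⟩ ⟨⟨hd', _⟩, hA', hN'⟩ h
    simp only [Prod.mk.injEq] at h hd hd' hA hA'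
    obtain ⟨rfl, h2⟩ := h
    have h3 : B * M = B' * M := by linarith
    have h4 : B = B' := mul_right_cancel₀ hM.ne' h3
    subst h4
    have h5 : A * C = A * C' := by linarith
    have h6 : C = C' := mul_left_cancel₀ hA.ne' h5
    rw [h6]

open Classical in
/-- the forms with a given residue of `B` -/
noncomputable def SF (k r x M : ℤ) : Finset (ℤ × ℤ × ℤ) :=
  if h : 0 < M then (SS_fin k x M h).toFinset.filter (fun q => q.2.1 % 30 = r) else ∅

theorem mem_SF (k r x M : ℤ) (hM : 0 < M) (q : ℤ × ℤ × ℤ) :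
    q ∈ SF k r x M ↔ q ∈ SS k x M ∧ q.2.1 % 30 = r := by
  unfold SF
  rw [dif_pos hM, Finset.mem_filter, Set.Finite.mem_toFinset]

/-- divisible by two -/
def Ev (q : ℤ × ℤ × ℤ) : Prop := (2 : ℤ) ∣ q.1 ∧ (2 : ℤ) ∣ q.2.2

instance (q : ℤ × ℤ × ℤ) : Decidable (Ev q) := by unfold Ev; infer_instance

/-- the weighted number of forms -/
noncomputable def H (r x M : ℤ) : ℤ :=
  ((SF 2 r x M).filter fun q => ¬ Ev q).card - ((SF 2 r x M).filter fun q => Ev q).card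

theorem Fp_eq (x M : ℤ) (hM : 0 < M) : Fp x M = H 22 x M - H 8 x M := by
  classical
  unfold Fp
  rw [finsum_eq_sum_of_support_subset (s := SF 2 22 x M ∪ SF 2 8 x M)]
  · rw [Finset.sum_union]
    · have key : ∀ r : ℤ, (r = 22 ∨ r = 8) → ∑ q ∈ SF 2 r x M, (if Fm q ∧ 0 < q.1 ∧
          q.1 * x ^ 2 + q.2.1 * x * M + q.2.2 * M ^ 2 < 0 then cQ q else 0) =
          (if r = 22 then 1 else -1) * H r x M := by
        intro r hr
        have e1 : ∀ q ∈ SF 2 r x M, (if Fm q ∧ 0 < q.1 ∧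
          q.1 * x ^ 2 + q.2.1 * x * M + q.2.2 * M ^ 2 < 0 then cQ q else 0) =
          (if r = 22 then 1 else -1) * (if Ev q then -1 else 1) := by
          intro q hq
          obtain ⟨⟨⟨h1, h2⟩, h3, h4⟩, h5⟩ := (mem_SF 2 r x M hM q).1 hq
          rw [if_pos ⟨⟨by rw [h1]; norm_num, h2, by rw [h5]; exact hr⟩, h3, h4⟩]
          unfold cQ Ev
          rw [h5]
        rw [Finset.sum_congr rfl e1, ← Finset.mul_sum]
        congr 1
        rw [Finset.sum_ite, Finset.sum_const, Finset.sum_const, H]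
        simp only [nsmul_eq_mul, mul_neg, mul_one]
        ring
      rw [key 22 (Or.inl rfl), key 8 (Or.inr rfl)]
      norm_num
      ring
    · rw [Finset.disjoint_left]
      intro q h1 h2
      have e1 := ((mem_SF 2 22 x M hM q).1 h1).2
      have e2 := ((mem_SF 2 8 x M hM q).1 h2).2
      omega
  · intro q hq
    rw [Function.mem_support] at hq
    have h : Fm q ∧ 0 < q.1 ∧ q.1 * x ^ 2 + q.2.1 * x * M + q.2.2 * M ^ 2 < 0 := by
      by_contra hn
      exact hq (if_neg hn)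
    obtain ⟨⟨h1, h2, h3⟩, h4, h5⟩ := h
    rw [Finset.mem_coe, Finset.mem_union, mem_SF _ _ _ _ hM, mem_SF _ _ _ _ hM]
    have h6 : q ∈ SS 2 x M := ⟨⟨by rw [h1]; norm_num, h2⟩, h4, h5⟩
    rcases h3 with h3 | h3
    · exact Or.inl ⟨h6, h3⟩
    · exact Or.inr ⟨h6, h3⟩

theorem H_flip (x M : ℤ) (hM : 0 < M) : H 8 x M = H 22 (M - x) M := by
  have key : ∀ (r r' y : ℤ), (r = 8 ∧ r' = 22 ∨ r = 22 ∧ r' = 8) → ∀ q ∈ SF 2 r y M,
      (q.1, -(2 * q.1 + q.2.1), q.1 + q.2.1 + q.2.2) ∈ SF 2 r' (M - y) M ∧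
      (Ev (q.1, -(2 * q.1 + q.2.1), q.1 + q.2.1 + q.2.2) ↔ Ev q) := by
    rintro r r' y hr ⟨A, B, C⟩ h
    rw [mem_SF _ _ _ _ hM] at h ⊢
    simp only [SS, Set.mem_ofPred_eq] at h ⊢
    obtain ⟨⟨⟨h1, h2⟩, h4, h5⟩, h6⟩ := h
    refine ⟨⟨⟨⟨by linear_combination h1, h2⟩, h4, ?_⟩, by omega⟩, ?_⟩
    · calc _ = A * y ^ 2 + B * y * M + C * M ^ 2 := by ring
        _ < 0 := h5
    · unfold Ev
      simp only
      omega
  have inv : ∀ q : ℤ × ℤ × ℤ, (fun q : ℤ × ℤ × ℤ => (q.1, -(2 * q.1 + q.2.1), q.1 + q.2.1 + q.2.2))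
      ((fun q : ℤ × ℤ × ℤ => (q.1, -(2 * q.1 + q.2.1), q.1 + q.2.1 + q.2.2)) q) = q := by
    rintro ⟨A, B, C⟩
    simp only [Prod.mk.injEq]
    refine ⟨trivial, by ring, by ring⟩
  have e0 : M - (M - x) = x := by ring
  unfold H
  congr 2
  · refine Finset.card_nbij' (fun q => (q.1, -(2 * q.1 + q.2.1), q.1 + q.2.1 + q.2.2))
      (fun q => (q.1, -(2 * q.1 + q.2.1), q.1 + q.2.1 + q.2.2)) ?_ ?_ ?_ ?_
    · intro q hq
      have hq := Finset.mem_filter.1 (Finset.mem_coe.1 hq)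
      have := key 8 22 x (Or.inl ⟨rfl, rfl⟩) q hq.1
      exact Finset.mem_coe.2 (Finset.mem_filter.2 ⟨this.1, fun h => hq.2 (this.2.1 h)⟩)
    · intro q hq
      have hq := Finset.mem_filter.1 (Finset.mem_coe.1 hq)
      have := key 22 8 (M - x) (Or.inr ⟨rfl, rfl⟩) q hq.1
      rw [e0] at this
      exact Finset.mem_coe.2 (Finset.mem_filter.2 ⟨this.1, fun h => hq.2 (this.2.1 h)⟩)
    · intro q _
      exact inv q
    · intro q _
      exact inv q
  · refine Finset.card_nbij' (fun q => (q.1, -(2 * q.1 + q.2.1), q.1 + q.2.1 + q.2.2))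
      (fun q => (q.1, -(2 * q.1 + q.2.1), q.1 + q.2.1 + q.2.2)) ?_ ?_ ?_ ?_
    · intro q hq
      have hq := Finset.mem_filter.1 (Finset.mem_coe.1 hq)
      have := key 8 22 x (Or.inl ⟨rfl, rfl⟩) q hq.1
      exact Finset.mem_coe.2 (Finset.mem_filter.2 ⟨this.1, this.2.2 hq.2⟩)
    · intro q hq
      have hq := Finset.mem_filter.1 (Finset.mem_coe.1 hq)
      have := key 22 8 (M - x) (Or.inr ⟨rfl, rfl⟩) q hq.1
      rw [e0] at this
      exact Finset.mem_coe.2 (Finset.mem_filter.2 ⟨this.1, this.2.2 hq.2⟩)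
    · intro q _
      exact inv q
    · intro q _
      exact inv q

/-- the set of factorization data, determinant `k m` -/
def Om (k m : ℕ) : Finset (Σ _ : ℕ, ℕ × ℕ) :=
  ((range (k * m)).filter (fun T => 5 ∣ T ∧ 3 ∣ k * m - T)).sigma fun T =>
    ((k * m - T).divisors.filter (3 ∣ ·)) ×ˢ (T.divisors.filter (5 ∣ ·))

/-- the condition on the cusp -/
def Cd (k m : ℕ) (x : ℤ) (w : Σ _ : ℕ, ℕ × ℕ) : Prop :=
  (m : ℤ) ∣ (w.2.1 : ℤ) * x + ((w.1 / w.2.2 : ℕ) : ℤ) ∧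
  (m : ℤ) ∣ (w.2.2 : ℤ) * x - (((k * m - w.1) / w.2.1 : ℕ) : ℤ)

instance (k m : ℕ) (x : ℤ) (w : Σ _ : ℕ, ℕ × ℕ) : Decidable (Cd k m x w) := by
  unfold Cd; infer_instance

/-- the data with an even first factor -/
def T1 (w : Σ _ : ℕ, ℕ × ℕ) : Prop := 2 ∣ w.2.1 ∧ 2 ∣ w.1 / w.2.2

/-- the data with an even second factor -/
def T2 (k m : ℕ) (w : Σ _ : ℕ, ℕ × ℕ) : Prop := 2 ∣ w.2.2 ∧ 2 ∣ (k * m - w.1) / w.2.1

instance (w : Σ _ : ℕ, ℕ × ℕ) : Decidable (T1 w) := by unfold T1; infer_instance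
instance (k m : ℕ) (w : Σ _ : ℕ, ℕ × ℕ) : Decidable (T2 k m w) := by unfold T2; infer_instance

/-- the form attached to the data -/
def fw (k m : ℕ) (x : ℤ) (w : Σ _ : ℕ, ℕ × ℕ) : ℤ × ℤ × ℤ :=
  ((w.2.1 : ℤ) * w.2.2,
    w.2.1 * ((((k * m - w.1) / w.2.1 : ℕ) - (w.2.2 : ℤ) * x) / m) +
      w.2.2 * ((-((w.1 / w.2.2 : ℕ) : ℤ) - (w.2.1 : ℤ) * x) / m),
    ((-((w.1 / w.2.2 : ℕ) : ℤ) - (w.2.1 : ℤ) * x) / m) *
      ((((k * m - w.1) / w.2.1 : ℕ) - (w.2.2 : ℤ) * x) / m))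

/-- the facts about the data -/
structure Fc (k m : ℕ) (x : ℤ) (T a a' : ℕ) (X Y : ℕ) (c c' : ℤ) : Prop where
  hX : T / a' = X
  hY : (k * m - T) / a = Y
  hT : T = a' * X
  hS : k * m - T = a * Y
  h3 : (a : ℤ) * Y + a' * X = k * m
  pa : 0 < a
  pa' : 0 < a'
  pX : 0 < X
  pY : 0 < Y
  ha : 3 ∣ a
  ha' : 5 ∣ a'
  hc : -(X : ℤ) - a * x = m * c
  hc' : (Y : ℤ) - a' * x = m * c'
  dt : (a : ℤ) * c' - a' * c = k

theorem facts (k m : ℕ) (hm : 0 < m) (x : ℤ) (T a a' : ℕ)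
    (h : (⟨T, (a, a')⟩ : Σ _ : ℕ, ℕ × ℕ) ∈ Om k m)
    (hC : Cd k m x ⟨T, (a, a')⟩) : ∃ X Y : ℕ, ∃ c c' : ℤ, Fc k m x T a a' X Y c c' ∧
      fw k m x ⟨T, (a, a')⟩ = ((a : ℤ) * a', a * c' + a' * c, c * c') := by
  unfold Om at h
  simp only [Finset.mem_sigma, Finset.mem_filter, Finset.mem_range, Finset.mem_product,
    Nat.mem_divisors] at h
  obtain ⟨⟨hT, hT5, hT3⟩, ⟨⟨h1, h2⟩, h3⟩, ⟨h4, h5⟩, h6⟩ := h
  obtain ⟨Y, hY⟩ := h1
  obtain ⟨X, hX⟩ := h4
  have pa : 0 < a := by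
    rcases Nat.eq_zero_or_pos a with h | h
    · subst h; simp at hY; omega
    · exact h
  have pa' : 0 < a' := by
    rcases Nat.eq_zero_or_pos a' with h | h
    · subst h; simp at hX; exact absurd hX h5
    · exact h
  have eX : T / a' = X := by rw [hX]; exact Nat.mul_div_cancel_left _ pa'
  have eY : (k * m - T) / a = Y := by rw [hY]; exact Nat.mul_div_cancel_left _ pa
  have pX : 0 < X := by
    rcases Nat.eq_zero_or_pos X with h | h
    · subst h; simp at hX; exact absurd hX h5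
    · exact h
  have pY : 0 < Y := by
    rcases Nat.eq_zero_or_pos Y with h | h
    · subst h; simp at hY; omega
    · exact h
  have e3 : (a : ℤ) * Y + a' * X = k * m := by
    have : a * Y + a' * X = k * m := by omega
    exact_mod_cast this
  unfold Cd at hC
  simp only at hC
  rw [eX, eY] at hC
  obtain ⟨⟨j, hj⟩, ⟨j', hj'⟩⟩ := hC
  have hc : -(X : ℤ) - a * x = m * (-j) := by linear_combination -hj
  have hc' : (Y : ℤ) - a' * x = m * (-j') := by linear_combination -hj'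
  have hm' : (m : ℤ) ≠ 0 := by exact_mod_cast hm.ne'
  refine ⟨X, Y, -j, -j', ⟨eX, eY, hX, hY, e3, pa, pa', pX, pY, h3, h6, hc, hc', ?_⟩, ?_⟩
  · apply mul_left_cancel₀ hm'
    linear_combination e3 - a * hc' + a' * hc
  · unfold fw
    simp only
    rw [eX, eY, hc, hc', Int.mul_ediv_cancel_left _ hm', Int.mul_ediv_cancel_left _ hm']

/-- mod two -/
theorem par (a a' c c' : ℤ) (h1 : (2 : ℤ) ∣ a * a') (h2 : (2 : ℤ) ∣ c * c')
    (h3 : (2 : ℤ) ∣ a * c' + a' * c) : ((2 : ℤ) ∣ a ∧ (2 : ℤ) ∣ c) ∨ ((2 : ℤ) ∣ a' ∧ (2 : ℤ) ∣ c') := by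
  have p2 : Prime (2 : ℤ) := Int.prime_two
  rcases p2.dvd_or_dvd h1 with ha | ha
  · rcases p2.dvd_or_dvd h2 with hc | hc
    · exact Or.inl ⟨ha, hc⟩
    · have h4 : (2 : ℤ) ∣ a' * c := (Int.dvd_add_right (ha.mul_right c')).1 h3
      rcases p2.dvd_or_dvd h4 with h5 | h5
      · exact Or.inr ⟨h5, hc⟩
      · exact Or.inl ⟨ha, h5⟩
  · rcases p2.dvd_or_dvd h2 with hc | hc
    · have h4 : (2 : ℤ) ∣ a * c' := (Int.dvd_add_left (ha.mul_right c)).1 h3
      rcases p2.dvd_or_dvd h4 with h5 | h5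
      · exact Or.inl ⟨h5, hc⟩
      · exact Or.inr ⟨ha, h5⟩
    · exact Or.inr ⟨ha, hc⟩

/-- the conditions -/
structure Gk (k m : ℕ) : Prop where
  hk : k = 1 ∨ k = 2
  pos : 0 < m
  odd : m % 2 = 1

theorem even_c {m : ℕ} (ho : m % 2 = 1) {a x c : ℤ} {X : ℕ} (hc : -(X : ℤ) - a * x = m * c)
    (ha : (2 : ℤ) ∣ a) : (2 : ℤ) ∣ c ↔ 2 ∣ X := by
  obtain ⟨j, rfl⟩ := ha
  obtain ⟨i, hi⟩ : ∃ i, m = 2 * i + 1 := ⟨m / 2, by omega⟩
  rw [hi] at hc
  push_cast at hc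
  have e : (X : ℤ) = -(2 * (j * x + i * c)) - c := by linear_combination -hc
  omega

theorem even_c' {m : ℕ} (ho : m % 2 = 1) {a x c : ℤ} {Y : ℕ} (hc : (Y : ℤ) - a * x = m * c)
    (ha : (2 : ℤ) ∣ a) : (2 : ℤ) ∣ c ↔ 2 ∣ Y := by
  obtain ⟨j, rfl⟩ := ha
  obtain ⟨i, hi⟩ : ∃ i, m = 2 * i + 1 := ⟨m / 2, by omega⟩
  rw [hi] at hc
  push_cast at hc
  have e : (Y : ℤ) = 2 * (j * x + i * c) + c := by linear_combination hc
  omega

theorem fwd_mem {k m : ℕ} (g : Gk k m) {x : ℤ} {T a a' X Y : ℕ} {c c' : ℤ}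
    (f : Fc k m x T a a' X Y c c') (n1 : ¬ (2 ∣ a ∧ 2 ∣ X)) (n2 : ¬ (2 ∣ a' ∧ 2 ∣ Y)) :
    ((a : ℤ) * a', a * c' + a' * c, c * c') ∈ SS k x m ∧ (a * c' + a' * c) % 30 = 11 * k ∧
      ¬ ((2 : ℤ) ∣ (a : ℤ) * a' ∧ (2 : ℤ) ∣ a * c' + a' * c ∧ (2 : ℤ) ∣ c * c') := by
  have hB3 : (a * c' + a' * c) % 30 = 11 * k := by
    obtain ⟨s, hs⟩ := f.ha
    obtain ⟨t, ht⟩ := f.ha'
    have e1 : a * c' + a' * c = 10 * (t * c) + k := by
      have := f.dt
      have e2 : (a' : ℤ) = 5 * t := by rw [ht]; push_cast; ring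
      rw [e2] at this ⊢
      linear_combination this
    have e3 : a * c' + a' * c = 6 * (s * c') - k := by
      have := f.dt
      have e2 : (a : ℤ) = 3 * s := by rw [hs]; push_cast; ring
      rw [e2] at this ⊢
      linear_combination -this
    rcases g.hk with h | h
    · subst h; push_cast at e1 e3 ⊢; omega
    · subst h; push_cast at e1 e3 ⊢; omega
  refine ⟨⟨⟨?_, ?_⟩, ?_, ?_⟩, hB3, ?_⟩
  · simp only
    linear_combination (a * c' - a' * c + k) * f.dt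
  · simp only
    obtain ⟨s, hs⟩ := f.ha
    obtain ⟨t, ht⟩ := f.ha'
    exact ⟨s * t, by rw [hs, ht]; push_cast; ring⟩
  · simp only
    exact mul_pos (by exact_mod_cast f.pa) (by exact_mod_cast f.pa')
  · simp only
    have h1 : (a : ℤ) * a' * x ^ 2 + (a * c' + a' * c) * x * m + c * c' * m ^ 2 = -(X * Y) := by
      linear_combination (-(a' : ℤ) * x - m * c') * f.hc + (X : ℤ) * f.hc'
    rw [h1]
    have : (0 : ℤ) < X * Y := mul_pos (by exact_mod_cast f.pX) (by exact_mod_cast f.pY)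
    linarith
  · rintro ⟨h1, h2, h3⟩
    rcases par a a' c c' h1 h3 h2 with ⟨h4, h5⟩ | ⟨h4, h5⟩
    · exact n1 ⟨by exact_mod_cast h4, (even_c g.odd f.hc h4).1 h5⟩
    · exact n2 ⟨by exact_mod_cast h4, (even_c' g.odd f.hc' h4).1 h5⟩

theorem gcd_of {k : ℕ} (hk : k = 1 ∨ k = 2) (r s : ℤ) (h : ∃ t w : ℤ, r * t + s * w = k)
    (hn : ¬ ((2 : ℤ) ∣ r ∧ (2 : ℤ) ∣ s)) : Int.gcd r s = 1 := by
  obtain ⟨t, w, h⟩ := h
  have h1 : ((Int.gcd r s : ℕ) : ℤ) ∣ k := by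
    rw [← h]
    exact dvd_add (Dvd.dvd.mul_right (Int.gcd_dvd_left ..) _)
      (Dvd.dvd.mul_right (Int.gcd_dvd_right ..) _)
  have h2 : Int.gcd r s ∣ k := by exact_mod_cast h1
  rcases hk with rfl | rfl
  · exact Nat.dvd_one.1 h2
  · rcases (Nat.dvd_prime Nat.prime_two).1 h2 with h3 | h3
    · exact h3
    · exfalso
      apply hn
      have h4 := Int.gcd_dvd_left r s
      have h5 := Int.gcd_dvd_right r s
      rw [h3] at h4 h5
      exact ⟨by exact_mod_cast h4, by exact_mod_cast h5⟩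

theorem inj_aux {k m : ℕ} (g : Gk k m) {x : ℤ} {T a a' X Y : ℕ} {c c' : ℤ}
    (f : Fc k m x T a a' X Y c c') (n1 : ¬ (2 ∣ a ∧ 2 ∣ X)) :
    (a' : ℤ) = Int.gcd ((a : ℤ) * a') (a' * c) := by
  rw [mul_comm (a : ℤ) a', Int.gcd_mul_left]
  rw [gcd_of g.hk a c ⟨c', -a', by linear_combination f.dt⟩ (fun h => n1 ⟨by exact_mod_cast h.1,
    (even_c g.odd f.hc h.1).1 h.2⟩)]
  simp

theorem inj {k m : ℕ} (g : Gk k m) {x : ℤ} {T a a' X Y : ℕ} {c c' : ℤ}
    (f : Fc k m x T a a' X Y c c') (n1 : ¬ (2 ∣ a ∧ 2 ∣ X))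
    {T1 a1 a1' X1 Y1 : ℕ} {c1 c1' : ℤ}
    (f1 : Fc k m x T1 a1 a1' X1 Y1 c1 c1') (n11 : ¬ (2 ∣ a1 ∧ 2 ∣ X1))
    (e : ((a : ℤ) * a', a * c' + a' * c, c * c') =
      (((a1 : ℤ) * a1', a1 * c1' + a1' * c1, c1 * c1') : ℤ × ℤ × ℤ)) : T = T1 ∧ a = a1 ∧ a' = a1' := by
  simp only [Prod.mk.injEq] at e
  obtain ⟨e1, e2, e3⟩ := e
  have e4 : (a' : ℤ) * c = a1' * c1 := by linarith [f.dt, f1.dt]
  have k1 := inj_aux g f n1
  have k2 := inj_aux g f1 n11
  rw [e1, e4, ← k2] at k1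
  have k3 : a' = a1' := by exact_mod_cast k1
  subst k3
  have p := f.pa'
  have k4 : (a : ℤ) = a1 := mul_right_cancel₀ (by exact_mod_cast p.ne') e1
  have k5 : a = a1 := by exact_mod_cast k4
  subst k5
  refine ⟨?_, rfl, rfl⟩
  have p' : (a' : ℤ) ≠ 0 := by exact_mod_cast p.ne'
  have k6 : c = c1 := mul_left_cancel₀ p' e4
  subst k6
  have k7 : X = X1 := by
    have h1 := f.hc
    have h2 := f1.hc
    have : (X : ℤ) = X1 := by linarith
    exact_mod_cast this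
  rw [f.hT, f1.hT, k7]

theorem surj {k m : ℕ} (g : Gk k m) {x : ℤ} {q : ℤ × ℤ × ℤ} (hq : q ∈ SS k x m)
    (h11 : q.2.1 % 30 = 11 * k)
    (h0 : ¬ ((2 : ℤ) ∣ q.1 ∧ (2 : ℤ) ∣ q.2.1 ∧ (2 : ℤ) ∣ q.2.2)) : ∃ w ∈ Om k m, Cd k m x w ∧
      ¬ T1 w ∧ ¬ T2 k m w ∧ fw k m x w = q := by
  obtain ⟨A, B, C⟩ := q
  obtain ⟨⟨hd, h15⟩, hA, hN⟩ := hq
  simp only at hd h15 hA hN h11 h0
  obtain ⟨γ, hγ⟩ : ∃ γ, B = 2 * γ + k := ⟨(B - k) / 2, by rcases g.hk with h | h <;> subst h <;> omega⟩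
  subst hγ
  have hAC : A * C = γ * (γ + k) := by linarith
  have hm := g.pos
  have hγ5 : (5 : ℤ) ∣ γ := by rcases g.hk with h | h <;> subst h <;> push_cast at h11 <;> omega
  have hγ3 : ¬ (3 : ℤ) ∣ γ := by rcases g.hk with h | h <;> subst h <;> push_cast at h11 <;> omega
  -- the gcd
  obtain ⟨a', ha'⟩ : ∃ a' : ℕ, a' = Int.gcd A γ := ⟨_, rfl⟩
  have hd1 : (a' : ℤ) ∣ A := by rw [ha']; exact Int.gcd_dvd_left ..
  have hd2 : (a' : ℤ) ∣ γ := by rw [ha']; exact Int.gcd_dvd_right ..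
  have hd5 : (5 : ℤ) ∣ a' := by
    rw [ha']
    refine Int.dvd_coe_gcd (by omega) hγ5
  obtain ⟨a, ha⟩ := hd1
  obtain ⟨c, hc⟩ := hd2
  have pa' : (0 : ℤ) < a' := by
    rcases Nat.eq_zero_or_pos a' with h | h
    · rw [h] at ha; simp at ha; omega
    · exact_mod_cast h
  have pa : 0 < a := by
    rw [ha] at hA
    exact (mul_pos_iff_of_pos_left pa').1 hA
  have hgcd : Int.gcd a c = 1 := by
    have h1 : a' = a' * Int.gcd a c := by
      conv_lhs => rw [ha', ha, hc, Int.gcd_mul_left]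
      simp
    have h2 : 0 < a' := by exact_mod_cast pa'
    exact (Nat.eq_of_mul_eq_mul_left h2 (by rw [← h1, mul_one])).symm
  have hcop : IsCoprime a c := Int.isCoprime_iff_gcd_eq_one.2 hgcd
  have h1 : a * C = c * (γ + k) := by
    apply mul_left_cancel₀ pa'.ne'
    rw [← mul_assoc, ← ha, hAC, ← mul_assoc, ← hc]
  have h2 : a ∣ γ + k := by
    have : a ∣ c * (γ + k) := ⟨C, h1.symm⟩
    exact hcop.dvd_of_dvd_mul_left this
  obtain ⟨c', hc'⟩ := h2
  have hC : C = c * c' := by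
    apply mul_left_cancel₀ pa.ne'
    rw [h1, hc']
    ring
  have dt : a * c' - a' * c = k := by rw [← hc', ← hc]; ring
  have ha3 : (3 : ℤ) ∣ a := by
    have h5 : (3 : ℤ) ∣ a' * a := by rw [← ha]; omega
    rcases Int.prime_three.dvd_or_dvd h5 with h | h
    · exact absurd (hc ▸ h.mul_right c) hγ3
    · exact h
  lift a to ℕ using pa.le with a hae
  -- X and Y
  obtain ⟨X, hX⟩ : ∃ X : ℤ, X = -(a * x + c * m) := ⟨_, rfl⟩
  obtain ⟨Y, hY⟩ : ∃ Y : ℤ, Y = a' * x + c' * m := ⟨_, rfl⟩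
  have hXY : 0 < X * Y := by
    have : X * Y = -(A * x ^ 2 + (2 * γ + k) * x * m + C * m ^ 2) := by
      rw [hX, hY, hC, ha]
      linear_combination (x * m) * hc + (x * m) * hc'
    rw [this]
    linarith
  have h3 : (a : ℤ) * Y + a' * X = k * m := by
    rw [hX, hY]
    linear_combination (m : ℤ) * dt
  have hk0 : (0 : ℤ) < k := by rcases g.hk with h | h <;> subst h <;> norm_num
  have hpos : 0 < X ∧ 0 < Y := by
    rcases pos_and_pos_or_neg_and_neg_of_mul_pos hXY with h | h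
    · exact h
    · exfalso
      have e1 : (a : ℤ) * Y < 0 := mul_neg_of_pos_of_neg pa h.2
      have e2 : (a' : ℤ) * X < 0 := mul_neg_of_pos_of_neg pa' h.1
      have e3 : (0 : ℤ) < m := by exact_mod_cast hm
      nlinarith
  obtain ⟨pX, pY⟩ := hpos
  lift X to ℕ using pX.le with X hXe
  lift Y to ℕ using pY.le with Y hYe
  have h3' : a * Y + a' * X = k * m := by exact_mod_cast h3
  have na : 0 < a := by exact_mod_cast pa
  have na' : 0 < a' := by exact_mod_cast pa'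
  have nX : 0 < X := by exact_mod_cast pX
  have nY : 0 < Y := by exact_mod_cast pY
  have d3 : 3 ∣ a := by exact_mod_cast ha3
  have d5 : 5 ∣ a' := by exact_mod_cast hd5
  have eS : k * m - a' * X = a * Y := by omega
  have e1 : (k * m - a' * X) / a = Y := by rw [eS]; exact Nat.mul_div_cancel_left _ na
  have e2 : a' * X / a' = X := Nat.mul_div_cancel_left _ na'
  have e3 : -(X : ℤ) - a * x = m * c := by rw [hX]; ring
  have e4 : (Y : ℤ) - a' * x = m * c' := by rw [hY]; ring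
  have hm' : (m : ℤ) ≠ 0 := by exact_mod_cast hm.ne'
  have pXa : 0 < a' * X := Nat.mul_pos na' nX
  have pYa : 0 < a * Y := Nat.mul_pos na nY
  refine ⟨⟨a' * X, (a, a')⟩, ?_, ?_, ?_, ?_, ?_⟩
  · unfold Om
    simp only [Finset.mem_sigma, Finset.mem_filter, Finset.mem_range, Finset.mem_product,
      Nat.mem_divisors]
    rw [eS]
    refine ⟨⟨by omega, Dvd.dvd.mul_right d5 _, Dvd.dvd.mul_right d3 _⟩,
      ⟨⟨Dvd.intro _ rfl, by omega⟩, d3⟩, ⟨Dvd.intro _ rfl, by omega⟩, d5⟩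
  · unfold Cd
    simp only
    rw [e1, e2]
    exact ⟨⟨-c, by linear_combination -e3⟩, ⟨-c', by linear_combination -e4⟩⟩
  · unfold T1
    simp only
    rw [e2]
    rintro ⟨h, h'⟩
    have i1 : (2 : ℤ) ∣ (a : ℤ) := by exact_mod_cast h
    have i2 : (2 : ℤ) ∣ c := (even_c g.odd e3 i1).2 h'
    have i3 := Int.dvd_coe_gcd i1 i2
    rw [hgcd] at i3
    exact absurd i3 (by norm_num)
  · unfold T2
    simp only
    rw [e1]
    rintro ⟨h, h'⟩
    have i1 : (2 : ℤ) ∣ (a' : ℤ) := by exact_mod_cast h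
    have i2 : (2 : ℤ) ∣ c' := (even_c' g.odd e4 i1).2 h'
    apply h0
    refine ⟨by rw [ha]; exact i1.mul_right _, ?_, by rw [hC]; exact i2.mul_left _⟩
    have : 2 * γ + (k : ℤ) = a * c' + a' * c := by rw [← hc', ← hc]; ring
    rw [this]
    exact dvd_add (i2.mul_left _) (i1.mul_right _)
  · unfold fw
    simp only
    rw [e1, e2, e3, e4, Int.mul_ediv_cancel_left _ hm', Int.mul_ediv_cancel_left _ hm', ← hc, ← hc',
      ← hC, mul_comm (a : ℤ), ← ha]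
    simp only [Prod.mk.injEq, and_true, true_and]
    ring

/-- the data without even factors and the primitive forms -/
theorem bij {k m : ℕ} (g : Gk k m) (x : ℤ) :
    ((Om k m).filter fun w => Cd k m x w ∧ ¬ T1 w ∧ ¬ T2 k m w).card =
      ((SF k (11 * k) x m).filter fun q =>
        ¬ ((2 : ℤ) ∣ q.1 ∧ (2 : ℤ) ∣ q.2.1 ∧ (2 : ℤ) ∣ q.2.2)).card := by
  have hm : (0 : ℤ) < m := by exact_mod_cast g.pos
  have key : ∀ w ∈ (Om k m).filter fun w => Cd k m x w ∧ ¬ T1 w ∧ ¬ T2 k m w,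
      ∃ X Y : ℕ, ∃ c c' : ℤ, Fc k m x w.1 w.2.1 w.2.2 X Y c c' ∧
      fw k m x w = ((w.2.1 : ℤ) * w.2.2, w.2.1 * c' + w.2.2 * c, c * c') ∧
      ¬ (2 ∣ w.2.1 ∧ 2 ∣ X) ∧ ¬ (2 ∣ w.2.2 ∧ 2 ∣ Y) := by
    intro w hw
    rw [Finset.mem_filter] at hw
    obtain ⟨hw, hC, h1, h2⟩ := hw
    obtain ⟨T, a, a'⟩ := w
    obtain ⟨X, Y, c, c', f, hf⟩ := facts k m g.pos x T a a' hw hC
    refine ⟨X, Y, c, c', f, hf, ?_, ?_⟩
    · unfold T1 at h1
      simp only at h1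
      rw [f.hX] at h1
      exact h1
    · unfold T2 at h2
      simp only at h2
      rw [f.hY] at h2
      exact h2
  refine Finset.card_bij (fun w _ => fw k m x w) ?_ ?_ ?_
  · intro w hw
    obtain ⟨X, Y, c, c', f, hf, n1, n2⟩ := key w hw
    rw [hf, Finset.mem_filter, mem_SF _ _ _ _ hm]
    have := fwd_mem g f n1 n2
    exact ⟨⟨this.1, this.2.1⟩, this.2.2⟩
  · intro w hw w1 hw1 e
    obtain ⟨X, Y, c, c', f, hf, n1, n2⟩ := key w hw
    obtain ⟨X1, Y1, c1, c1', f1, hf1, n11, n21⟩ := key w1 hw1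
    rw [hf, hf1] at e
    obtain ⟨k1, k2, k3⟩ := inj g f n1 f1 n11 e
    obtain ⟨T, a, a'⟩ := w
    obtain ⟨T1, a1, a1'⟩ := w1
    simp only at k1 k2 k3
    subst k1 k2 k3
    rfl
  · intro q hq
    rw [Finset.mem_filter, mem_SF _ _ _ _ hm] at hq
    obtain ⟨⟨h1, h2⟩, h3⟩ := hq
    obtain ⟨w, hw, hC, n1, n2, hf⟩ := surj g h1 h2 h3
    exact ⟨w, Finset.mem_filter.2 ⟨hw, hC, n1, n2⟩, hf⟩

/-- the first type of even data -/
theorem type1 {m : ℕ} (hm : 0 < m) (ho : m % 2 = 1) (x : ℤ) :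
    ((Om 2 m).filter fun w => Cd 2 m x w ∧ T1 w).card =
      ((Om 1 m).filter fun w => Cd 1 m x w).card := by
  symm
  have hco : IsCoprime (m : ℤ) 2 := by
    rw [show (2 : ℤ) = ((2 : ℕ) : ℤ) by norm_num, Nat.isCoprime_iff_coprime]
    exact Nat.Coprime.symm ((Nat.Prime.coprime_iff_not_dvd Nat.prime_two).2 (by omega))
  refine Finset.card_bij (fun w _ => (⟨2 * w.1, (2 * w.2.1, w.2.2)⟩ : Σ _ : ℕ, ℕ × ℕ)) ?_ ?_ ?_
  · rintro ⟨T, a, a'⟩ hw
    rw [Finset.mem_filter] at hw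
    obtain ⟨hw, hC⟩ := hw
    obtain ⟨X, Y, c, c', f, -⟩ := facts 1 m hm x T a a' hw hC
    have h1 := f.hT
    have h2 := f.hS
    have pa := f.pa
    have pa' := f.pa'
    have pX := f.pX
    have pY := f.pY
    have hl : T < 1 * m := by
      have : 0 < a * Y := Nat.mul_pos pa pY
      omega
    have e1 : 2 * T / a' = 2 * X := by rw [h1]; rw [show 2 * (a' * X) = a' * (2 * X) by ring]; exact Nat.mul_div_cancel_left _ pa'
    have e0 : 2 * m - 2 * T = 2 * a * Y := by rw [mul_assoc, ← h2]; omega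
    have e2 : (2 * m - 2 * T) / (2 * a) = Y := by
      rw [e0]; exact Nat.mul_div_cancel_left _ (by omega)
    rw [Finset.mem_filter]
    refine ⟨?_, ?_, ?_⟩
    · unfold Om at hw ⊢
      simp only [Finset.mem_sigma, Finset.mem_filter, Finset.mem_range, Finset.mem_product,
        Nat.mem_divisors] at hw ⊢
      obtain ⟨⟨_, hT5, hT3⟩, ⟨⟨i1, i2⟩, i3⟩, ⟨i4, i5⟩, i6⟩ := hw
      refine ⟨⟨by omega, by omega, by omega⟩, ⟨⟨⟨Y, e0⟩, by omega⟩, by omega⟩,
        ⟨i4.mul_left 2, by omega⟩, i6⟩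
    · unfold Cd
      simp only
      rw [e1, e2]
      refine ⟨⟨-(2 * c), ?_⟩, ⟨-c', by linear_combination -f.hc'⟩⟩
      push_cast
      linear_combination -2 * f.hc
    · unfold T1
      simp only
      rw [e1]
      exact ⟨Dvd.intro _ rfl, Dvd.intro _ rfl⟩
  · rintro ⟨T, a, a'⟩ hw ⟨T', b, b'⟩ hw' e
    simp only [Sigma.mk.injEq, heq_eq_eq, Prod.mk.injEq] at e
    obtain ⟨h1, h2, h3⟩ := e
    have h4 : T = T' := by omega
    have h5 : a = b := by omega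
    subst h4 h5 h3
    rfl
  · rintro ⟨T, a, a'⟩ hw
    rw [Finset.mem_filter] at hw
    obtain ⟨hw, hC, hT1⟩ := hw
    obtain ⟨X, Y, c, c', f, -⟩ := facts 2 m hm x T a a' hw hC
    have h1 := f.hT
    have h2 := f.hS
    have pa := f.pa
    have pa' := f.pa'
    have pX := f.pX
    have pY := f.pY
    unfold T1 at hT1
    simp only at hT1
    rw [f.hX] at hT1
    obtain ⟨⟨α, hα⟩, ⟨X1, hX1⟩⟩ := hT1
    have pα : 0 < α := by omega
    have pX1 : 0 < X1 := by omega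
    have hT' : T = 2 * (a' * X1) := by rw [h1, hX1]; ring
    have hS' : 2 * m - T = 2 * (α * Y) := by rw [h2, hα]; ring
    have hpos : 0 < α * Y := Nat.mul_pos pα pY
    have hpos' : 0 < a' * X1 := Nat.mul_pos pa' pX1
    have e0 : 1 * m - a' * X1 = α * Y := by omega
    have e1 : a' * X1 / a' = X1 := Nat.mul_div_cancel_left _ pa'
    have e2 : (1 * m - a' * X1) / α = Y := by rw [e0]; exact Nat.mul_div_cancel_left _ pα
    have d3 : 3 ∣ α := by
      have := f.ha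
      omega
    refine ⟨⟨a' * X1, (α, a')⟩, ?_, ?_⟩
    · rw [Finset.mem_filter]
      refine ⟨?_, ?_⟩
      · unfold Om
        simp only [Finset.mem_sigma, Finset.mem_filter, Finset.mem_range, Finset.mem_product,
          Nat.mem_divisors]
        rw [e0]
        refine ⟨⟨by omega, f.ha'.mul_right _, d3.mul_right _⟩, ⟨⟨Dvd.intro _ rfl, by omega⟩, d3⟩,
          ⟨Dvd.intro _ rfl, by omega⟩, f.ha'⟩
      · unfold Cd
        simp only
        rw [e1, e2]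
        refine ⟨?_, ⟨-c', by linear_combination -f.hc'⟩⟩
        have h5 : (m : ℤ) ∣ 2 * ((α : ℤ) * x + X1) := by
          refine ⟨-c, ?_⟩
          have := f.hc
          rw [hα, hX1] at this
          push_cast at this
          linear_combination -this
        exact hco.dvd_of_dvd_mul_left h5
    · simp only
      rw [hT', hα]

/-- the second type of even data -/
theorem type2 {m : ℕ} (hm : 0 < m) (ho : m % 2 = 1) (x : ℤ) :
    ((Om 2 m).filter fun w => Cd 2 m x w ∧ T2 2 m w).card =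
      ((Om 1 m).filter fun w => Cd 1 m x w).card := by
  symm
  have hco : IsCoprime (m : ℤ) 2 := by
    rw [show (2 : ℤ) = ((2 : ℕ) : ℤ) by norm_num, Nat.isCoprime_iff_coprime]
    exact Nat.Coprime.symm ((Nat.Prime.coprime_iff_not_dvd Nat.prime_two).2 (by omega))
  refine Finset.card_bij (fun w _ => (⟨2 * w.1, (w.2.1, 2 * w.2.2)⟩ : Σ _ : ℕ, ℕ × ℕ)) ?_ ?_ ?_
  · rintro ⟨T, a, a'⟩ hw
    rw [Finset.mem_filter] at hw
    obtain ⟨hw, hC⟩ := hw
    obtain ⟨X, Y, c, c', f, -⟩ := facts 1 m hm x T a a' hw hC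
    have h1 := f.hT
    have h2 := f.hS
    have pa := f.pa
    have pa' := f.pa'
    have pX := f.pX
    have pY := f.pY
    have hl : T < 1 * m := by
      have : 0 < a * Y := Nat.mul_pos pa pY
      omega
    have e1 : 2 * T / (2 * a') = X := by rw [h1, ← mul_assoc]; exact Nat.mul_div_cancel_left _ (by omega)
    have e0 : 2 * m - 2 * T = a * (2 * Y) := by
      have : a * (2 * Y) = 2 * (a * Y) := by ring
      rw [this, ← h2]; omega
    have e2 : (2 * m - 2 * T) / a = 2 * Y := by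
      rw [e0]; exact Nat.mul_div_cancel_left _ pa
    rw [Finset.mem_filter]
    refine ⟨?_, ?_, ?_⟩
    · unfold Om at hw ⊢
      simp only [Finset.mem_sigma, Finset.mem_filter, Finset.mem_range, Finset.mem_product,
        Nat.mem_divisors] at hw ⊢
      obtain ⟨⟨_, hT5, hT3⟩, ⟨⟨i1, i2⟩, i3⟩, ⟨i4, i5⟩, i6⟩ := hw
      refine ⟨⟨by omega, by omega, by omega⟩, ⟨⟨⟨2 * Y, e0⟩, by omega⟩, i3⟩,
        ⟨Nat.mul_dvd_mul_left 2 i4, by omega⟩, by omega⟩
    · unfold Cd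
      simp only
      rw [e1, e2]
      refine ⟨⟨-c, by linear_combination -f.hc⟩, ⟨-(2 * c'), ?_⟩⟩
      push_cast
      linear_combination -2 * f.hc'
    · unfold T2
      simp only
      rw [e2]
      exact ⟨Dvd.intro _ rfl, Dvd.intro _ rfl⟩
  · rintro ⟨T, a, a'⟩ hw ⟨T', b, b'⟩ hw' e
    simp only [Sigma.mk.injEq, heq_eq_eq, Prod.mk.injEq] at e
    obtain ⟨h1, h2, h3⟩ := e
    have h4 : T = T' := by omega
    have h5 : a' = b' := by omega
    subst h4 h5 h2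
    rfl
  · rintro ⟨T, a, a'⟩ hw
    rw [Finset.mem_filter] at hw
    obtain ⟨hw, hC, hT1⟩ := hw
    obtain ⟨X, Y, c, c', f, -⟩ := facts 2 m hm x T a a' hw hC
    have h1 := f.hT
    have h2 := f.hS
    have pa := f.pa
    have pa' := f.pa'
    have pX := f.pX
    have pY := f.pY
    unfold T2 at hT1
    simp only at hT1
    rw [f.hY] at hT1
    obtain ⟨⟨α, hα⟩, ⟨Y1, hY1⟩⟩ := hT1
    have pα : 0 < α := by omega
    have pY1 : 0 < Y1 := by omega
    have hT' : T = 2 * (α * X) := by rw [h1, hα]; ring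
    have hS' : 2 * m - T = 2 * (a * Y1) := by rw [h2, hY1]; ring
    have hpos : 0 < a * Y1 := Nat.mul_pos pa pY1
    have hpos' : 0 < α * X := Nat.mul_pos pα pX
    have e0 : 1 * m - α * X = a * Y1 := by omega
    have e1 : α * X / α = X := Nat.mul_div_cancel_left _ pα
    have e2 : (1 * m - α * X) / a = Y1 := by rw [e0]; exact Nat.mul_div_cancel_left _ pa
    have d5 : 5 ∣ α := by
      have := f.ha'
      omega
    refine ⟨⟨α * X, (a, α)⟩, ?_, ?_⟩
    · rw [Finset.mem_filter]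
      refine ⟨?_, ?_⟩
      · unfold Om
        simp only [Finset.mem_sigma, Finset.mem_filter, Finset.mem_range, Finset.mem_product,
          Nat.mem_divisors]
        rw [e0]
        refine ⟨⟨by omega, d5.mul_right _, f.ha.mul_right _⟩, ⟨⟨Dvd.intro _ rfl, by omega⟩, f.ha⟩,
          ⟨Dvd.intro _ rfl, by omega⟩, d5⟩
      · unfold Cd
        simp only
        rw [e1, e2]
        refine ⟨⟨-c, by linear_combination -f.hc⟩, ?_⟩
        have h5 : (m : ℤ) ∣ 2 * ((α : ℤ) * x - Y1) := by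
          refine ⟨-c', ?_⟩
          have := f.hc'
          rw [hα, hY1] at this
          push_cast at this
          linear_combination -this
        exact hco.dvd_of_dvd_mul_left h5
    · simp only
      rw [hT', hα]

/-- forms divisible by two -/
theorem half (x m : ℤ) (hm : 0 < m) :
    ((SF 2 22 x m).filter fun q => Ev q).card = (SF 1 11 x m).card := by
  symm
  refine Finset.card_bij (fun q _ => (2 * q.1, 2 * q.2.1, 2 * q.2.2)) ?_ ?_ ?_
  · rintro ⟨A, B, C⟩ hq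
    rw [mem_SF _ _ _ _ hm] at hq
    obtain ⟨⟨⟨h1, h2⟩, h3, h4⟩, h5⟩ := hq
    simp only at h1 h2 h3 h4 h5
    rw [Finset.mem_filter, mem_SF _ _ _ _ hm]
    refine ⟨⟨⟨⟨?_, ?_⟩, ?_, ?_⟩, ?_⟩, ?_⟩
    · simp only; linear_combination 4 * h1
    · simp only; exact h2.mul_left 2
    · simp only; omega
    · simp only; linarith
    · simp only; omega
    · exact ⟨Dvd.intro _ rfl, Dvd.intro _ rfl⟩
  · rintro ⟨A, B, C⟩ _ ⟨A', B', C'⟩ _ e
    simp only [Prod.mk.injEq] at e ⊢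
    omega
  · rintro ⟨A, B, C⟩ hq
    rw [Finset.mem_filter, mem_SF _ _ _ _ hm] at hq
    obtain ⟨⟨⟨⟨h1, h2⟩, h3, h4⟩, h5⟩, h6, h7⟩ := hq
    simp only at h1 h2 h3 h4 h5 h6 h7
    obtain ⟨A', rfl⟩ := h6
    obtain ⟨C', rfl⟩ := h7
    obtain ⟨B', rfl⟩ : (2 : ℤ) ∣ B := by omega
    have e1 : B' ^ 2 - 4 * A' * C' = 1 := by linarith
    have hB : B' % 2 = 1 := by
      rcases Int.even_or_odd B' with h | h
      · exfalso
        obtain ⟨j, rfl⟩ := h
        have : 2 * (2 * j ^ 2 - 2 * A' * C') = 1 := by linarith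
        omega
      · exact Int.odd_iff.1 h
    refine ⟨(A', B', C'), ?_, rfl⟩
    rw [mem_SF _ _ _ _ hm]
    refine ⟨⟨⟨?_, ?_⟩, ?_, ?_⟩, ?_⟩
    · simp only; linarith
    · simp only; omega
    · simp only; omega
    · simp only; linarith
    · simp only; omega

/-- the weighted number of forms is a number of data -/
theorem H_eq {m : ℕ} (hm : 0 < m) (ho : m % 2 = 1) (x : ℤ) :
    H 22 x m = ((Om 2 m).filter fun w => Cd 2 m x w).card -
      3 * ((Om 1 m).filter fun w => Cd 1 m x w).card := by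
  have hm' : (0 : ℤ) < m := by exact_mod_cast hm
  have g1 : Gk 1 m := ⟨Or.inl rfl, hm, ho⟩
  have g2 : Gk 2 m := ⟨Or.inr rfl, hm, ho⟩
  have b1 := bij g1 x
  have b2 := bij g2 x
  have t1 := type1 hm ho x
  have t2 := type2 hm ho x
  have hf := half x m hm'
  -- primitive forms
  have p1 : ((SF 1 11 x m).filter fun q =>
      ¬ ((2 : ℤ) ∣ q.1 ∧ (2 : ℤ) ∣ q.2.1 ∧ (2 : ℤ) ∣ q.2.2)) = SF 1 11 x m := by
    refine Finset.filter_true_of_mem ?_
    intro q hq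
    have := ((mem_SF _ _ _ _ hm' q).1 hq).2
    omega
  have p2 : ((SF 2 22 x m).filter fun q =>
      ¬ ((2 : ℤ) ∣ q.1 ∧ (2 : ℤ) ∣ q.2.1 ∧ (2 : ℤ) ∣ q.2.2)) =
      (SF 2 22 x m).filter fun q => ¬ Ev q := by
    refine Finset.filter_congr ?_
    intro q hq
    have := ((mem_SF _ _ _ _ hm' q).1 hq).2
    unfold Ev
    omega
  -- data
  have q1 : ((Om 1 m).filter fun w => Cd 1 m x w ∧ ¬ T1 w ∧ ¬ T2 1 m w) =
      (Om 1 m).filter fun w => Cd 1 m x w := by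
    refine Finset.filter_congr ?_
    rintro ⟨T, a, a'⟩ hw
    refine ⟨fun h => h.1, fun h => ⟨h, ?_⟩⟩
    obtain ⟨X, Y, c, c', f, -⟩ := facts 1 m hm x T a a' hw h
    unfold T1 T2
    simp only
    rw [f.hX, f.hY]
    have dt := f.dt
    refine ⟨?_, ?_⟩
    · rintro ⟨i1, i2⟩
      have j1 : (2 : ℤ) ∣ (a : ℤ) := by exact_mod_cast i1
      have j2 : (2 : ℤ) ∣ c := (even_c ho f.hc j1).2 i2
      have : (2 : ℤ) ∣ ((1 : ℕ) : ℤ) := by
        rw [← dt]; exact dvd_sub (j1.mul_right _) (j2.mul_left _)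
      exact absurd this (by norm_num)
    · rintro ⟨i1, i2⟩
      have j1 : (2 : ℤ) ∣ (a' : ℤ) := by exact_mod_cast i1
      have j2 : (2 : ℤ) ∣ c' := (even_c' ho f.hc' j1).2 i2
      have : (2 : ℤ) ∣ ((1 : ℕ) : ℤ) := by
        rw [← dt]; exact dvd_sub (j2.mul_left _) (j1.mul_right _)
      exact absurd this (by norm_num)
  have q2 : ((Om 2 m).filter fun w => Cd 2 m x w).card =
      ((Om 2 m).filter fun w => Cd 2 m x w ∧ ¬ T1 w ∧ ¬ T2 2 m w).card +
      ((Om 2 m).filter fun w => Cd 2 m x w ∧ T1 w).card +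
      ((Om 2 m).filter fun w => Cd 2 m x w ∧ T2 2 m w).card := by
    rw [add_assoc, ← Finset.card_union_of_disjoint (s := (Om 2 m).filter fun w => Cd 2 m x w ∧ T1 w),
      ← Finset.card_union_of_disjoint]
    · congr 1
      ext w
      simp only [Finset.mem_union, Finset.mem_filter]
      tauto
    · rw [Finset.disjoint_left]
      intro w h1 h2
      simp only [Finset.mem_union, Finset.mem_filter] at h1 h2
      tauto
    · rw [Finset.disjoint_left]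
      rintro ⟨T, a, a'⟩ h1 h2
      rw [Finset.mem_filter] at h1 h2
      obtain ⟨hw, hC, i1⟩ := h1
      obtain ⟨-, -, i2⟩ := h2
      obtain ⟨X, Y, c, c', f, -⟩ := facts 2 m hm x T a a' hw hC
      unfold T1 at i1
      unfold T2 at i2
      simp only at i1 i2
      rw [f.hX] at i1
      rw [f.hY] at i2
      obtain ⟨⟨α, hα⟩, ⟨X1, hX1⟩⟩ := i1
      obtain ⟨⟨α', hα'⟩, ⟨Y1, hY1⟩⟩ := i2
      have h3 := f.h3
      rw [hα, hX1, hα', hY1] at h3
      push_cast at h3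
      have : (m : ℤ) = 2 * (α * Y1 + α' * X1) := by linarith
      omega
  have e1 : (11 : ℤ) * ((1 : ℕ) : ℤ) = 11 := by norm_num
  have e2 : (11 : ℤ) * ((2 : ℕ) : ℤ) = 22 := by norm_num
  have e3 : (((1 : ℕ) : ℤ)) = 1 := by norm_num
  have e4 : (((2 : ℕ) : ℤ)) = 2 := by norm_num
  rw [e1, e3, p1, q1] at b1
  rw [e2, e4, p2] at b2
  unfold H
  rw [hf, ← b1, ← b2, q2, t1, t2]
  push_cast
  ring

/-- the sum over the cusps -/
theorem WU_eq (k m : ℕ) : WU m (k * m) = ∑ u ∈ un m, jacobiSym u m *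
    ((Om k m).filter fun w => Cd k m u w).card := by
  classical
  have h : ∀ u ∈ un m, jacobiSym u m * (((Om k m).filter fun w => Cd k m u w).card : ℤ) =
      ∑ w ∈ Om k m, if Cd k m u w then jacobiSym u m else 0 := by
    intro u _
    rw [← Finset.sum_filter, Finset.sum_const, nsmul_eq_mul, mul_comm]
  rw [Finset.sum_congr rfl h, Finset.sum_comm]
  unfold Om WU
  rw [Finset.sum_sigma]
  refine Finset.sum_congr rfl fun T _ => ?_
  rw [Finset.sum_product]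
  refine Finset.sum_congr rfl fun a _ => ?_
  refine Finset.sum_congr rfl fun a' _ => ?_
  rw [Finset.sum_filter]
  refine Finset.sum_congr rfl fun u _ => ?_
  unfold Cd
  simp only

theorem jac_neg {m : ℕ} (h4 : m % 4 = 3) (x : ℤ) : jacobiSym (-x) m = -jacobiSym x m := by
  rw [jacobiSym.neg x (Nat.odd_iff.2 (by omega)), ZMod.χ₄_nat_three_mod_four h4, neg_one_mul]

/-- C1A for all odd `m = 3 mod 4` -/
theorem c1a {m : ℕ} (h4 : m % 4 = 3) :
    ∑ u ∈ un m, jacobiSym u m * Fp u m = 2 * (WU m (2 * m) - 3 * WU m m) := by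
  have hm : 0 < m := by omega
  have ho : m % 2 = 1 := by omega
  have hm0 : (0 : ℤ) < m := by exact_mod_cast hm
  have mem : ∀ u ∈ un m, m - u ∈ un m ∧ m - (m - u) = u ∧ u < m := by
    intro u hu
    unfold un at hu ⊢
    rw [Finset.mem_filter, Finset.mem_range] at hu ⊢
    have hu0 : u ≠ 0 := by
      rintro rfl
      have := hu.2
      rw [Nat.coprime_zero_left] at this
      omega
    refine ⟨⟨by omega, ?_⟩, by omega, hu.1⟩
    rw [Nat.coprime_comm, Nat.coprime_self_sub_right hu.1.le, Nat.coprime_comm]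
    exact hu.2
  have flip : ∑ u ∈ un m, jacobiSym u m * H 8 u m = -∑ u ∈ un m, jacobiSym u m * H 22 u m := by
    rw [← Finset.sum_neg_distrib]
    refine Finset.sum_nbij' (fun u => m - u) (fun u => m - u) ?_ ?_ ?_ ?_ ?_
    · intro u hu
      exact (mem u hu).1
    · intro u hu
      exact (mem u hu).1
    · intro u hu
      exact (mem u hu).2.1
    · intro u hu
      exact (mem u hu).2.1
    · intro u hu
      rw [H_flip _ _ hm0]
      have e1 : ((m - u : ℕ) : ℤ) = (m : ℤ) - u := by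
        rw [Nat.cast_sub (mem u hu).2.2.le]
      rw [e1]
      have e2 : jacobiSym ((m : ℤ) - u) m = jacobiSym (-u) m := by
        apply jacobiSym.mod_left'
        rw [show (m : ℤ) - u = -u + m by ring]
        exact Int.add_emod_right _ _
      rw [e2, jac_neg h4]
      ring
  have lhs : ∀ u ∈ un m, jacobiSym u m * Fp u m =
      jacobiSym u m * H 22 u m - jacobiSym u m * H 8 u m := by
    intro u _
    rw [Fp_eq _ _ hm0]
    ring
  rw [Finset.sum_congr rfl lhs, Finset.sum_sub_distrib, flip]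
  have w1 := WU_eq 1 m
  have w2 := WU_eq 2 m
  rw [one_mul] at w1
  rw [w1, w2]
  have e : ∀ u ∈ un m, jacobiSym u m * H 22 u m =
      jacobiSym u m * ((Om 2 m).filter fun w => Cd 2 m u w).card -
      3 * (jacobiSym u m * ((Om 1 m).filter fun w => Cd 1 m u w).card) := by
    intro u _
    rw [H_eq hm ho]
    ring
  rw [Finset.sum_congr rfl e, Finset.sum_sub_distrib, ← Finset.mul_sum]
  ring

/-- C1A -/
theorem t_C1A : S_C1A := by
  intro n hn
  refine c1a ?_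
  have := hn.2
  omega

end Pool.Agent.N970.P15.C1A
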